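import Pool.Agent.J6H36.PF.Stm

/-!
# Project PF, module LOC
-/

set_option autoImplicit false

universe u

namespace Pool.Agent.J6H8.PF

open Pool.Agent.J6H36.BSV Pool.Agent.J6H36.PF

/-- finite presentation -/
lemma lift_closure {R K : Type u} [CommRing R] [CommRing K] (π : R →+* K)
    (hπ : Function.Surjective π) (t : Finset R) (t' : Finset K)
    (ht : ∀ z ∈ t, π z ∈ Subring.closure (t' : Set K)) :
    ∃ s : Finset R, (∀ z ∈ s, π z = 0) ∧ ∀ (C : Type u) [CommRing C] (f : R →+* C),
      (∀ z ∈ s, f z = 0) → ∃ ρ : Subring.closure (t' : Set K) →+* C,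
        ∀ (z : R) (hz : z ∈ t), ρ ⟨π z, ht z hz⟩ = f z := by
  classical
  choose r hr using hπ
  let e : MvPolynomial t' ℤ →+* R :=
    MvPolynomial.eval₂Hom (Int.castRingHom R) fun l : t' => r (l : K)
  have hπe : ∀ q : MvPolynomial t' ℤ, π (e q) ∈ Subring.closure (t' : Set K) := by
    intro q
    induction q using MvPolynomial.induction_on with
    | C a =>
      have : π (e (MvPolynomial.C a)) = (a : K) := by
        simp [e]
      rw [this]
      exact intCast_mem _ a
    | add p q hp hq => rw [map_add, map_add]; exact add_mem hp hq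
    | mul_X p i hp =>
      rw [map_mul, map_mul]
      refine mul_mem hp ?_
      have : π (e (MvPolynomial.X i)) = (i : K) := by
        simp [e, hr]
      rw [this]
      exact Subring.subset_closure i.2
  let e' : MvPolynomial t' ℤ →+* Subring.closure (t' : Set K) :=
    (π.comp e).codRestrict _ hπe
  have he' : ∀ q, ((e' q : Subring.closure (t' : Set K)) : K) = π (e q) := fun q => rfl
  have hsurj : Function.Surjective e' := by
    intro z
    have hz : (z : K) ∈ (π.comp e).range := by
      have h1 : Subring.closure (t' : Set K) ≤ (π.comp e).range := by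
        rw [Subring.closure_le]
        intro w hw
        exact ⟨MvPolynomial.X ⟨w, hw⟩, by simp [e, hr]⟩
      exact h1 z.2
    obtain ⟨q, hq⟩ := hz
    exact ⟨q, Subtype.ext hq⟩
  have hfg : (RingHom.ker e').FG := (isNoetherianRing_iff_ideal_fg _).mp inferInstance _
  obtain ⟨s₀, hs₀⟩ := hfg
  choose h hh using fun z : t => hsurj ⟨π (z : R), ht z z.2⟩
  refine ⟨s₀.image e ∪ t.attach.image (fun z => e (h z) - z), ?_, ?_⟩
  · intro z hz
    rw [Finset.mem_union, Finset.mem_image, Finset.mem_image] at hz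
    rcases hz with ⟨q, hq, rfl⟩ | ⟨w, -, rfl⟩
    · have h1 : q ∈ RingHom.ker e' := by
        rw [← hs₀]; exact Ideal.subset_span hq
      have h2 := congrArg (Subtype.val) ((RingHom.mem_ker).mp h1)
      exact h2
    · rw [map_sub, sub_eq_zero]
      exact congrArg Subtype.val (hh w)
  · intro C _ f hf
    have hker : RingHom.ker e' ≤ RingHom.ker (f.comp e) := by
      rw [← hs₀, Ideal.span_le]
      intro q hq
      exact hf (e q) (Finset.mem_union_left _ (Finset.mem_image_of_mem _ hq))
    refine ⟨e'.liftOfSurjective hsurj ⟨f.comp e, hker⟩, fun z hz => ?_⟩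
    have h1 := hh ⟨z, hz⟩
    rw [← h1]
    have h2 := RingHom.liftOfRightInverse_comp_apply e' (Function.surjInv hsurj)
      (Function.rightInverse_surjInv hsurj) ⟨f.comp e, hker⟩ (h ⟨z, hz⟩)
    refine h2.trans ?_
    have h3 := hf (e (h ⟨z, hz⟩) - z) (Finset.mem_union_right _
      (Finset.mem_image.mpr ⟨⟨z, hz⟩, Finset.mem_attach _ _, rfl⟩))
    rw [map_sub, sub_eq_zero] at h3
    exact h3

theorem t_LOC : S_LOC.{u} := by
  classical
  intro T i n ι F _ U x hx
  set π := Ideal.Quotient.mk (IU F U) with hπ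
  have hπs : Function.Surjective π := Ideal.Quotient.mk_surjective
  obtain ⟨t, y, hy⟩ := T.lift i n _ x
  let S0 := Subring.closure (t : Set (∀ j, F j))
  let S1 := Subring.closure ((t.image π : Finset (KU F U)) : Set (KU F U))
  have h01 : ∀ z ∈ S0, π z ∈ S1 := by
    intro z hz
    have h1 : S0 ≤ S1.comap π := by
      refine Subring.closure_le.mpr ?_
      intro w hw
      exact Subring.subset_closure (by
        rw [Finset.coe_image]
        exact Set.mem_image_of_mem _ hw)
    exact h1 hz
  let ρ0 : S0 →+* S1 := π.restrict S0 S1 h01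
  have hρ0 : S1.subtype.comp ρ0 = π.comp S0.subtype := RingHom.ext fun z => rfl
  have hy1 : T.map i n S1.subtype (T.map i n ρ0 y) = 0 := by
    rw [← T.map_comp, hρ0, T.map_comp]
    exact (congrArg (T.map i n π) hy).trans hx
  obtain ⟨t', h12, hy2⟩ := T.ker i n _ (t.image π) _ hy1
  have htS : ∀ z ∈ t, π z ∈ Subring.closure (t' : Set (KU F U)) := by
    intro z hz
    exact h12 (h01 z (Subring.subset_closure hz))
  obtain ⟨s, hs, H⟩ := lift_closure π hπs t t' htS
  have hA : {j : ι | ∀ z ∈ s, z j = 0} ∈ U := by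
    change ∀ᶠ j in U, ∀ z ∈ s, z j = 0
    rw [Filter.eventually_all_finset]
    intro z hz
    have h1 := hs z hz
    rw [hπ, Ideal.Quotient.eq_zero_iff_mem] at h1
    exact h1
  refine ⟨_, hA, ?_⟩
  set A := {j : ι | ∀ z ∈ s, z j = 0} with hAdef
  obtain ⟨ρ, hρ⟩ := H (∀ j : A, F j) (resA F A) (by
    intro z hz
    funext j
    exact j.2 z hz)
  have hcomp : (ρ.comp (Subring.inclusion h12)).comp ρ0 = (resA F A).comp S0.subtype := by
    refine RingHom.ext fun z => ?_
    obtain ⟨z, hz⟩ := z
    have key : ∀ (w : ∀ j, F j) (hw : w ∈ S0),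
        ((ρ.comp (Subring.inclusion h12)).comp ρ0) ⟨w, hw⟩ =
          ((resA F A).comp S0.subtype) ⟨w, hw⟩ := by
      intro w hw
      refine Subring.closure_induction (p := fun w hw =>
        ((ρ.comp (Subring.inclusion h12)).comp ρ0) ⟨w, hw⟩ =
          ((resA F A).comp S0.subtype) ⟨w, hw⟩) ?_ ?_ ?_ ?_ ?_ ?_ hw
      · intro w hw
        exact hρ w hw
      · exact (map_zero ((ρ.comp (Subring.inclusion h12)).comp ρ0)).trans
          (map_zero ((resA F A).comp S0.subtype)).symm
      · exact (map_one ((ρ.comp (Subring.inclusion h12)).comp ρ0)).trans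
          (map_one ((resA F A).comp S0.subtype)).symm
      · intro a b ha hb h1 h2
        have e1 := map_add ((ρ.comp (Subring.inclusion h12)).comp ρ0) (⟨a, ha⟩ : S0) ⟨b, hb⟩
        have e2 := map_add ((resA F A).comp S0.subtype) (⟨a, ha⟩ : S0) ⟨b, hb⟩
        exact e1.trans ((congrArg₂ (· + ·) h1 h2).trans e2.symm)
      · intro a ha h1
        have e1 := map_neg ((ρ.comp (Subring.inclusion h12)).comp ρ0) (⟨a, ha⟩ : S0)
        have e2 := map_neg ((resA F A).comp S0.subtype) (⟨a, ha⟩ : S0)
        exact e1.trans ((congrArg Neg.neg h1).trans e2.symm)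
      · intro a b ha hb h1 h2
        have e1 := map_mul ((ρ.comp (Subring.inclusion h12)).comp ρ0) (⟨a, ha⟩ : S0) ⟨b, hb⟩
        have e2 := map_mul ((resA F A).comp S0.subtype) (⟨a, ha⟩ : S0) ⟨b, hb⟩
        exact e1.trans ((congrArg₂ (· * ·) h1 h2).trans e2.symm)
    exact key z hz
  calc T.map i n (resA F A) x = T.map i n (resA F A) (T.map i n S0.subtype y) :=
        congrArg _ hy.symm
    _ = T.map i n ((ρ.comp (Subring.inclusion h12)).comp ρ0) y := by
        rw [← T.map_comp, hcomp]
    _ = T.map i n ρ (T.map i n (Subring.inclusion h12) (T.map i n ρ0 y)) := by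
        rw [T.map_comp, T.map_comp]
    _ = 0 := by rw [hy2, map_zero]

end Pool.Agent.J6H8.PF
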